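import Pool.Agent.Y999.ST.Stm

set_option autoImplicit false

/-!
# Harris construction of the colored TASEP (job 792, project ST, MP_71af4b_pr)
-/

namespace Pool.Agent.Y710.ST

open Pool.Agent.Y999.ST

open Classical in
/-- exchange the colors at `k`, `k + 1` if the color at `k` is smaller -/
noncomputable def mv (k : ℤ) (c : ℤ → ℤ) : ℤ → ℤ :=
  if c k < c (k + 1) then fun x => c (Equiv.swap k (k + 1) x) else c

open Classical in
/-- the move at time `u` -/
noncomputable def Fm (R : ℤ → Set ℝ) (u : ℝ) (c : ℤ → ℤ) : ℤ → ℤ :=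
  if h : ∃ k, u ∈ R k then mv h.choose c else c

theorem mv_other {k : ℤ} (c : ℤ → ℤ) {x : ℤ} (h1 : x ≠ k) (h2 : x ≠ k + 1) : mv k c x = c x := by
  unfold mv
  split_ifs with h
  · show c (Equiv.swap k (k + 1) x) = c x
    rw [Equiv.swap_apply_of_ne_of_ne h1 h2]
  · rfl

theorem Fm_other {R : ℤ → Set ℝ} {u : ℝ} (c : ℤ → ℤ) {x : ℤ} (h1 : u ∉ R (x - 1)) (h2 : u ∉ R x) :
    Fm R u c x = c x := by
  unfold Fm
  split_ifs with h
  · apply mv_other
    · intro hx
      exact h2 (by rw [hx]; exact h.choose_spec)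
    · intro hx
      apply h1
      have : x - 1 = h.choose := by omega
      rw [this]
      exact h.choose_spec
  · rfl

theorem Fm_eq {R : ℤ → Set ℝ} (hd : ∀ j k, j ≠ k → Disjoint (R j) (R k)) {u : ℝ} {k : ℤ} (hu : u ∈ R k)
    (c : ℤ → ℤ) : Fm R u c = mv k c := by
  unfold Fm
  have h : ∃ k, u ∈ R k := ⟨k, hu⟩
  rw [dif_pos h]
  have : h.choose = k := by
    by_contra hne
    exact Set.disjoint_left.1 (hd _ _ hne) h.choose_spec hu
  rw [this]

/-- two configurations that agree on the sites `k`, `k + 1` and `x` agree at `x` after the move -/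
theorem mv_congr {k : ℤ} {c c' : ℤ → ℤ} (h1 : c k = c' k) (h2 : c (k + 1) = c' (k + 1)) {x : ℤ} (h3 : c x = c' x) :
    mv k c x = mv k c' x := by
  by_cases hx : x = k
  · subst hx
    unfold mv
    rw [h1, h2]
    split_ifs
    · simp [h2]
    · exact h1
  by_cases hx' : x = k + 1
  · subst hx'
    unfold mv
    rw [h1, h2]
    split_ifs
    · simp [h1]
    · exact h2
  rw [mv_other c hx hx', mv_other c' hx hx', h3]

/-- the configuration after the moves at the times of a finite set -/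
noncomputable def cfg (R : ℤ → Set ℝ) (A : Finset ℝ) : ℤ → ℤ :=
  (A.sort (· ≥ ·)).foldr (Fm R) id

theorem foldr_other {R : ℤ → Set ℝ} {x : ℤ} (c : ℤ → ℤ) (l : List ℝ)
    (h : ∀ u ∈ l, u ∉ R (x - 1) ∧ u ∉ R x) : (l.foldr (Fm R) c) x = c x := by
  induction l with
  | nil => rfl
  | cons u l ih =>
    rw [List.foldr_cons, Fm_other _ (h u (by simp)).1 (h u (by simp)).2]
    exact ih (fun v hv => h v (List.mem_cons_of_mem _ hv))

theorem sort_split (A B : Finset ℝ) (hAB : ∀ u ∈ A, ∀ v ∈ B, v < u) :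
    (A ∪ B).sort (· ≥ ·) = A.sort (· ≥ ·) ++ B.sort (· ≥ ·) := by
  have hdis : Disjoint A B := by
    rw [Finset.disjoint_left]
    intro u hu hu'
    exact lt_irrefl _ (hAB u hu u hu')
  apply List.Perm.eq_of_pairwise' (r := (· ≥ ·))
  · exact (A ∪ B).pairwise_sort (· ≥ ·)
  · rw [List.pairwise_append]
    refine ⟨A.pairwise_sort (· ≥ ·), B.pairwise_sort (· ≥ ·), ?_⟩
    intro a ha b hb
    exact (hAB a (by simpa using ha) b (by simpa using hb)).le
  · rw [List.perm_ext_iff_of_nodup]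
    · intro a
      simp
    · exact (A ∪ B).sort_nodup _
    · rw [List.nodup_append]
      refine ⟨A.sort_nodup _, B.sort_nodup _, ?_⟩
      intro a ha b hb hab
      subst hab
      exact Finset.disjoint_left.1 hdis (by simpa using ha) (by simpa using hb)

theorem cfg_union {R : ℤ → Set ℝ} (A B : Finset ℝ) (hAB : ∀ u ∈ A, ∀ v ∈ B, v < u) :
    cfg R (A ∪ B) = (A.sort (· ≥ ·)).foldr (Fm R) (cfg R B) := by
  unfold cfg
  rw [sort_split A B hAB, List.foldr_append]

/-- the times up to `t` at which an edge strictly between `a` and `b` rings -/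
def bset (R : ℤ → Set ℝ) (a b : ℤ) (t : ℝ) : Set ℝ := {u | u ≤ t ∧ ∃ k, a < k ∧ k < b ∧ u ∈ R k}

theorem bset_finite {R : ℤ → Set ℝ} (hf : ∀ k (t : ℝ), {u | u ∈ R k ∧ u ≤ t}.Finite) (a b : ℤ) (t : ℝ) :
    (bset R a b t).Finite := by
  apply Set.Finite.subset (Set.Finite.biUnion (Set.finite_Ioo a b) (fun k _ => hf k t))
  rintro u ⟨hu, k, h1, h2, h3⟩
  exact Set.mem_biUnion (x := k) ⟨h1, h2⟩ ⟨h3, hu⟩

section
variable {R : ℤ → Set ℝ} (hf : ∀ k (t : ℝ), {u | u ∈ R k ∧ u ≤ t}.Finite)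

/-- the configuration of the block of edges strictly between `a` and `b` -/
noncomputable def eta (a b : ℤ) (t : ℝ) : ℤ → ℤ := cfg R (bset_finite hf a b t).toFinset

open Classical in
theorem foldr_filter (hd : ∀ j k, j ≠ k → Disjoint (R j) (R k)) {a b : ℤ} {t : ℝ} (sa : ∀ u ∈ R a, t < u)
    (sb : ∀ u ∈ R b, t < u) (l : List ℝ) (hl : ∀ u ∈ l, u ≤ t) : ∀ x : ℤ, a < x → x ≤ b →
    (l.foldr (Fm R) id) x = ((l.filter (fun u => decide (∃ k, a < k ∧ k < b ∧ u ∈ R k))).foldr (Fm R) id) x := by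
  induction l with
  | nil => intro x _ _; rfl
  | cons u l ih =>
    intro x h1 h2
    have ih' := ih (fun v hv => hl v (List.mem_cons_of_mem _ hv))
    by_cases hP : ∃ k, a < k ∧ k < b ∧ u ∈ R k
    · rw [List.filter_cons_of_pos (by simpa using hP), List.foldr_cons, List.foldr_cons]
      obtain ⟨k, hk1, hk2, hk3⟩ := hP
      rw [Fm_eq hd hk3, Fm_eq hd hk3]
      exact mv_congr (ih' k hk1 hk2.le) (ih' (k + 1) (by omega) (by omega)) (ih' x h1 h2)
    · rw [List.filter_cons_of_neg (by simpa using hP), List.foldr_cons]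
      rw [Fm_other, ih' x h1 h2]
      · intro hu
        by_cases hx : x - 1 = a
        · rw [hx] at hu
          exact absurd (hl u (by simp)) (not_le.2 (sa u hu))
        · exact hP ⟨x - 1, by omega, by omega, hu⟩
      · intro hu
        by_cases hx : x = b
        · rw [hx] at hu
          exact absurd (hl u (by simp)) (not_le.2 (sb u hu))
        · exact hP ⟨x, by omega, by omega, hu⟩

theorem eta_cmp (hd : ∀ j k, j ≠ k → Disjoint (R j) (R k)) {a' b' a b : ℤ} {t : ℝ} (ha : a' ≤ a) (hb : b ≤ b')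
    (sa : ∀ u ∈ R a, t < u) (sb : ∀ u ∈ R b, t < u) {x : ℤ} (hx : a < x) (hx' : x ≤ b) :
    eta hf a' b' t x = eta hf a b t x := by
  classical
  unfold eta cfg
  rw [foldr_filter hd sa sb _ _ x hx hx']
  · refine congrFun (congrArg (List.foldr (Fm R) id) ?_) x
    apply List.Perm.eq_of_pairwise' (r := (· ≥ ·))
    · exact (Finset.pairwise_sort _ (· ≥ ·)).filter _
    · exact Finset.pairwise_sort _ (· ≥ ·)
    · rw [List.perm_ext_iff_of_nodup]
      · intro u
        simp only [List.mem_filter, Finset.mem_sort, Set.Finite.mem_toFinset, bset, Set.mem_setOf_eq,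
          decide_eq_true_eq]
        constructor
        · rintro ⟨⟨h1, -⟩, h2⟩
          exact ⟨h1, h2⟩
        · rintro ⟨h1, k, h2, h3, h4⟩
          exact ⟨⟨h1, k, by omega, by omega, h4⟩, k, h2, h3, h4⟩
      · exact (Finset.sort_nodup _ _).filter _
      · exact Finset.sort_nodup _ _
  · intro u hu
    rw [Finset.mem_sort, Set.Finite.mem_toFinset] at hu
    exact hu.1

theorem eta_eq (hd : ∀ j k, j ≠ k → Disjoint (R j) (R k)) {a' b' a b : ℤ} {t : ℝ}
    (sa : ∀ u ∈ R a, t < u) (sb : ∀ u ∈ R b, t < u) (sa' : ∀ u ∈ R a', t < u) (sb' : ∀ u ∈ R b', t < u)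
    {x : ℤ} (hx1 : a < x) (hx2 : x ≤ b) (hx1' : a' < x) (hx2' : x ≤ b') :
    eta hf a' b' t x = eta hf a b t x := by
  rw [← eta_cmp hf hd (min_le_left a a') (le_max_left b b') sa sb hx1 hx2,
    ← eta_cmp hf hd (min_le_right a a') (le_max_right b b') sa' sb' hx1' hx2']

/-- the value at a site does not change when none of its edges rings -/
theorem eta_stay {a b : ℤ} {s t : ℝ} (hst : s ≤ t) {x : ℤ}
    (h : ∀ u, s < u → u ≤ t → u ∉ R (x - 1) ∧ u ∉ R x) : eta hf a b t x = eta hf a b s x := by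
  classical
  unfold eta
  set B := (bset_finite hf a b s).toFinset with hB
  set C := (bset_finite hf a b t).toFinset with hC
  set A := C.filter (fun u => s < u) with hA
  have hCAB : C = A ∪ B := by
    ext u
    simp only [hA, hB, hC, Finset.mem_union, Finset.mem_filter, Set.Finite.mem_toFinset, bset, Set.mem_setOf_eq]
    constructor
    · rintro ⟨h1, h2⟩
      by_cases hu : s < u
      · exact Or.inl ⟨⟨h1, h2⟩, hu⟩
      · exact Or.inr ⟨not_lt.1 hu, h2⟩
    · rintro (⟨h1, -⟩ | ⟨h1, h2⟩)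
      · exact h1
      · exact ⟨h1.trans hst, h2⟩
  rw [hCAB, cfg_union, foldr_other]
  · intro u hu
    rw [Finset.mem_sort, hA, Finset.mem_filter, hC, Set.Finite.mem_toFinset] at hu
    exact h u hu.2 hu.1.1
  · intro u hu v hv
    rw [hA, Finset.mem_filter] at hu
    rw [hB, Set.Finite.mem_toFinset] at hv
    exact lt_of_le_of_lt hv.1 hu.2

/-- the rule at a ring -/
theorem eta_ring (hd : ∀ j k, j ≠ k → Disjoint (R j) (R k)) {a b : ℤ} {s t : ℝ} (hst : s < t) {k : ℤ} (h1 : a < k)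
    (h2 : k < b) (ht : t ∈ R k)
    (h : ∀ u, s < u → u < t → u ∉ R (k - 1) ∧ u ∉ R k ∧ u ∉ R (k + 1)) :
    (eta hf a b s k < eta hf a b s (k + 1) → eta hf a b t k = eta hf a b s (k + 1) ∧
      eta hf a b t (k + 1) = eta hf a b s k) ∧
    (¬ eta hf a b s k < eta hf a b s (k + 1) → eta hf a b t k = eta hf a b s k ∧
      eta hf a b t (k + 1) = eta hf a b s (k + 1)) := by
  classical
  set B := (bset_finite hf a b s).toFinset with hB
  set C := (bset_finite hf a b t).toFinset with hC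
  set A := C.filter (fun u => s < u ∧ u < t) with hA
  have hCAB : C = {t} ∪ (A ∪ B) := by
    ext u
    simp only [hA, hB, hC, Finset.mem_union, Finset.mem_filter, Set.Finite.mem_toFinset, bset, Set.mem_setOf_eq,
      Finset.mem_singleton]
    constructor
    · rintro ⟨h1, h2⟩
      rcases h1.lt_or_eq with h1' | h1'
      · by_cases hu : s < u
        · exact Or.inr (Or.inl ⟨⟨h1, h2⟩, hu, h1'⟩)
        · exact Or.inr (Or.inr ⟨not_lt.1 hu, h2⟩)
      · exact Or.inl h1'
    · rintro (h1' | ⟨h1, -⟩ | ⟨h1, h2⟩)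
      · rw [h1']
        exact ⟨le_rfl, k, h1, h2, ht⟩
      · exact h1
      · exact ⟨h1.trans hst.le, h2⟩
  have hAB : ∀ u ∈ A, ∀ v ∈ B, v < u := by
    intro u hu v hv
    rw [hA, Finset.mem_filter] at hu
    rw [hB, Set.Finite.mem_toFinset] at hv
    exact lt_of_le_of_lt hv.1 hu.2.1
  have htAB : ∀ u ∈ ({t} : Finset ℝ), ∀ v ∈ A ∪ B, v < u := by
    intro u hu v hv
    rw [Finset.mem_singleton] at hu
    subst hu
    rw [Finset.mem_union] at hv
    rcases hv with hv | hv
    · rw [hA, Finset.mem_filter] at hv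
      exact hv.2.2
    · rw [hB, Set.Finite.mem_toFinset] at hv
      exact lt_of_le_of_lt hv.1 hst
  have e1 : ∀ y, y = k ∨ y = k + 1 → cfg R (A ∪ B) y = eta hf a b s y := by
    intro y hy
    rw [cfg_union A B hAB, foldr_other]
    · rfl
    · intro u hu
      rw [Finset.mem_sort, hA, Finset.mem_filter] at hu
      have := h u hu.2.1 hu.2.2
      rcases hy with hy | hy
      · subst hy
        exact ⟨this.1, this.2.1⟩
      · subst hy
        rw [add_sub_cancel_right]
        exact ⟨this.2.1, this.2.2⟩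
  have e2 : eta hf a b t = mv k (cfg R (A ∪ B)) := by
    unfold eta
    rw [← hC, hCAB, cfg_union _ _ htAB]
    simp [Fm_eq hd ht]
  have e3 := e1 k (Or.inl rfl)
  have e4 := e1 (k + 1) (Or.inr rfl)
  rw [e2, ← e3, ← e4]
  constructor
  · intro hlt
    unfold mv
    rw [if_pos hlt]
    simp
  · intro hlt
    unfold mv
    rw [if_neg hlt]
    exact ⟨rfl, rfl⟩

end

theorem arr_succ_lt {g : ℕ → ℝ} (hp : ∀ n, 0 < g n) : StrictMono (arr g) := by
  apply strictMono_nat_of_lt_succ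
  intro n
  unfold arr
  rw [Finset.sum_range_succ (fun i => g i) (n + 1)]
  have := hp (n + 1)
  linarith

theorem rings_finite {g : ℕ → ℝ} (hp : ∀ n, 0 < g n) (hu : ∀ t : ℝ, ∃ n, t < arr g n) (t : ℝ) :
    {u | u ∈ rings g ∧ u ≤ t}.Finite := by
  obtain ⟨n, hn⟩ := hu t
  apply Set.Finite.subset ((Set.finite_lt_nat n).image (arr g))
  rintro u ⟨⟨m, rfl⟩, hm⟩
  refine ⟨m, ?_, rfl⟩
  exact (arr_succ_lt hp).lt_iff_lt.1 (lt_of_le_of_lt hm hn)

theorem first_ring {g : ℕ → ℝ} (hp : ∀ n, 0 < g n) {t : ℝ} (ht : t < g 0) : ∀ u ∈ rings g, t < u := by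
  rintro u ⟨n, rfl⟩
  have h1 : arr g 0 ≤ arr g n := (arr_succ_lt hp).monotone (Nat.zero_le n)
  have h2 : arr g 0 = g 0 := by simp [arr]
  linarith

/-- **Harris construction**: for good clocks there is a trajectory of the colored TASEP. -/
theorem ex : Pool.Agent.Y999.ST.StEX := by
  intro g hg
  set R : ℤ → Set ℝ := fun k => rings (g k) with hR
  have hf : ∀ k (t : ℝ), {u | u ∈ R k ∧ u ≤ t}.Finite := fun k t => rings_finite (hg.pos k) (hg.unb k) t
  have hd : ∀ j k, j ≠ k → Disjoint (R j) (R k) := hg.dis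
  have hL : ∀ (t : ℝ) (x : ℤ), ∃ a : ℤ, a < x ∧ ∀ u ∈ R a, t < u := by
    intro t x
    obtain ⟨k, hk, hk'⟩ := hg.silL t (x - 1)
    exact ⟨k, by omega, first_ring (hg.pos k) hk'⟩
  have hRt : ∀ (t : ℝ) (x : ℤ), ∃ b : ℤ, x ≤ b ∧ ∀ u ∈ R b, t < u := by
    intro t x
    obtain ⟨k, hk, hk'⟩ := hg.silR t x
    exact ⟨k, hk, first_ring (hg.pos k) hk'⟩
  choose fa ha1 ha2 using hL
  choose fb hb1 hb2 using hRt
  refine ⟨fun t x => eta hf (fa t x) (fb t x) t x, ?_, ?_, ?_⟩
  · intro x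
    show eta hf _ _ 0 x = x
    have : (bset_finite hf (fa 0 x) (fb 0 x) 0).toFinset = ∅ := by
      ext u
      simp only [Set.Finite.mem_toFinset, bset, Set.mem_setOf_eq, Finset.notMem_empty, iff_false, not_and,
        not_exists]
      rintro hu k - - ⟨n, rfl⟩
      have h1 : arr (g k) 0 ≤ arr (g k) n := (arr_succ_lt (hg.pos k)).monotone (Nat.zero_le n)
      have h2 : arr (g k) 0 = g k 0 := by simp [arr]
      have := hg.pos k 0
      linarith
    unfold eta
    rw [this]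
    simp [cfg]
  · intro x s t _ hst h
    show eta hf (fa t x) (fb t x) t x = eta hf (fa s x) (fb s x) s x
    rw [eta_stay hf hst h]
    exact eta_eq hf hd (ha2 s x) (hb2 s x) (fun u hu => lt_of_le_of_lt hst (ha2 t x u hu))
      (fun u hu => lt_of_le_of_lt hst (hb2 t x u hu)) (ha1 s x) (hb1 s x) (ha1 t x) (hb1 t x)
  · intro x s t _ hst htx _ _ h
    obtain ⟨a, hax, ha⟩ : ∃ a, a < x ∧ ∀ u ∈ R a, t < u := ⟨fa t x, ha1 t x, ha2 t x⟩
    obtain ⟨b, hbx, hb⟩ : ∃ b, x + 1 ≤ b ∧ ∀ u ∈ R b, t < u := ⟨fb t (x + 1), hb1 t _, hb2 t _⟩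
    have key := eta_ring hf hd hst hax (by omega : x < b) htx h
    have e : ∀ r y, r ≤ t → (y = x ∨ y = x + 1) → eta hf (fa r y) (fb r y) r y = eta hf a b r y := by
      intro r y hr hy
      exact eta_eq hf hd (fun u hu => lt_of_le_of_lt hr (ha u hu)) (fun u hu => lt_of_le_of_lt hr (hb u hu))
        (ha2 r y) (hb2 r y) (by omega) (by omega) (ha1 r y) (hb1 r y)
    show (eta hf (fa s x) (fb s x) s x < eta hf (fa s (x + 1)) (fb s (x + 1)) s (x + 1) → _) ∧ _
    rw [e s x hst.le (Or.inl rfl), e s (x + 1) hst.le (Or.inr rfl), e t x le_rfl (Or.inl rfl),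
      e t (x + 1) le_rfl (Or.inr rfl)]
    exact key

end Pool.Agent.Y710.ST
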